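import Pool.Agent.W759.FD.All

/-!
# MP_ba6fcf_pr: the tail `1/n` of the coding radius is optimal for 1-dependent processes

There is a stationary 1-dependent process `X` on `ℤ` with the following property. For every factor
map from an iid process `Y` onto `X` and every interval `[a, b]` of `ℤ`, anywhere on the line,
every measurable function of `(Y_i)_{a ≤ i ≤ b}` differs from `X_0` with probability at least
`1 / (4 (b - a + 3))`. The coding radius `R` satisfies `P(R > r) ≥ 1 / (8 (r + 1))` for every
`r ≥ 0` and every factor map, and its expectation is infinite, which is the answer to Q1. The tail is optimal up to a constant factor: by the result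
quoted in the problem, every 1-dependent process is a finitary factor of an iid process with
`P(R ≥ n) ≤ 8 / n` for all `n`.

The construction and the estimate for symmetric windows are those of the starting library
`Pool.Agent.W759.FD`.
-/

namespace Pool.Agent.Results.MP_ba6fcf_pr.SharpTail

open MeasureTheory ProbabilityTheory
open scoped ENNReal

universe u

/-- The shift on bi-infinite sequences. -/
def shift {S : Type*} (x : ℤ → S) : ℤ → S := fun i => x (i + 1)

/-- A law on bi-infinite sequences is stationary if it is invariant under the shift. -/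
def Stationary {S : Type*} [MeasurableSpace S] (μ : Measure (ℤ → S)) : Prop :=
  μ.map shift = μ

/-- `k`-dependence: the restrictions to `A` and to `B` are independent whenever
`|i - j| > k` for all `i ∈ A`, `j ∈ B`. -/
def KDependent {S : Type*} [MeasurableSpace S] (k : ℕ) (μ : Measure (ℤ → S)) : Prop :=
  ∀ A B : Set ℤ, (∀ i ∈ A, ∀ j ∈ B, (k : ℤ) < |i - j|) →
    IndepFun (fun (x : ℤ → S) (i : A) => x i) (fun (x : ℤ → S) (j : B) => x j) μ

/-- The law of the iid process with one-site law `lam`. -/
noncomputable def iidLaw {T : Type*} [MeasurableSpace T] (lam : Measure T) : Measure (ℤ → T) :=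
  Measure.infinitePi (fun _ : ℤ => lam)

/-- Factor maps: measurable and (almost everywhere) commuting with the shift. -/
structure IsFactorMap {T S : Type*} [MeasurableSpace T] [MeasurableSpace S] (lam : Measure T)
    (φ : (ℤ → T) → (ℤ → S)) : Prop where
  measurable : Measurable φ
  equivariant : ∀ᵐ y ∂(iidLaw lam), φ (shift y) = shift (φ y)

/-- The coordinates of `y` in `[-r, r]` determine the coordinate of `φ y` at `0`. -/
def Determines {T S : Type*} (φ : (ℤ → T) → (ℤ → S)) (y : ℤ → T) (r : ℕ) : Prop :=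
  ∀ y' : ℤ → T, (∀ i : ℤ, |i| ≤ (r : ℤ) → y' i = y i) → φ y' 0 = φ y 0

/-- The coding radius of `φ` at `y`: the least `r` such that the coordinates of `y` in `[-r, r]`
determine the coordinate of `φ y` at `0`, and `⊤` if there is no such `r`. -/
noncomputable def codingRadius {T S : Type*} (φ : (ℤ → T) → (ℤ → S)) (y : ℤ → T) : ℕ∞ :=
  ⨅ (r : ℕ) (_ : Determines φ y r), (r : ℕ∞)

/-- `ψ` is a window map for `[a, b]`: a measurable function of the coordinates in `[a, b]` -/
structure IsWindowMap {T S : Type*} [MeasurableSpace T] [MeasurableSpace S] (a b : ℤ)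
    (ψ : (ℤ → T) → S) : Prop where
  measurable : Measurable ψ
  window : ∀ y y' : ℤ → T, (∀ i : ℤ, a ≤ i → i ≤ b → y i = y' i) → ψ y = ψ y'

lemma inv_bound {x : ℝ≥0∞} {N : ℕ} (hN : 0 < N) (h : 1 ≤ (N : ℝ≥0∞) * x) :
    ENNReal.ofReal (1 / (N : ℝ)) ≤ x := by
  have h0 : (N : ℝ≥0∞) ≠ 0 := by exact_mod_cast hN.ne'
  have hN' : (0 : ℝ) < N := by exact_mod_cast hN
  rw [one_div, ENNReal.ofReal_inv_of_pos hN', ENNReal.ofReal_natCast]
  calc (N : ℝ≥0∞)⁻¹ = (N : ℝ≥0∞)⁻¹ * 1 := (mul_one _).symm
    _ ≤ (N : ℝ≥0∞)⁻¹ * ((N : ℝ≥0∞) * x) := by gcongr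
    _ = x := by
      rw [← mul_assoc, ENNReal.inv_mul_cancel h0 (ENNReal.natCast_ne_top _), one_mul]

open Pool.Agent.W759.FD in
/-- The estimate for an arbitrary window, by stationarity. -/
lemma window_bound {T : Type u} [MeasurableSpace T] (lam : Measure T) [IsProbabilityMeasure lam]
    (f : (ℤ → T) → S0) (hf : Measurable f)
    (hmap : (iid lam).map (fun y a => f (sh a y)) = muX) {a b : ℤ} (hab : a ≤ b)
    (ψ : (ℤ → T) → S0) (hψ : IsWindowMap a b ψ) :
    1 ≤ ((4 * ((b - a).toNat + 3) : ℕ) : ℝ≥0∞) * iid lam {y | f y ≠ ψ y} := by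
  obtain ⟨n, hn⟩ : ∃ n : ℕ, n = (b - a).toNat := ⟨_, rfl⟩
  have hn' : (n : ℤ) = b - a := by omega
  obtain ⟨r, hr⟩ : ∃ r : ℕ, r = (n + 1) / 2 := ⟨_, rfl⟩
  obtain ⟨c, hc⟩ : ∃ c : ℤ, c = a + r := ⟨_, rfl⟩
  have hsm : Measurable (sh (T := T) (-c)) := measurable_sh (-c)
  have hF : Measurable (fun (y : ℤ → T) (e : ℤ) => f (sh e y)) :=
    measurable_pi_lambda _ fun e => hf.comp (measurable_sh e)
  have hlaw : (iid lam).map (fun y e => (fun y => f (sh (-c) y)) (sh e y)) = muX := by
    have h1 : (fun (y : ℤ → T) (e : ℤ) => (fun y => f (sh (-c) y)) (sh e y)) =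
        (fun (y : ℤ → T) (e : ℤ) => f (sh e y)) ∘ sh (-c) := by
      funext y e
      simp only [Function.comp, sh_add]
      rw [add_comm]
    rw [h1, ← Measure.map_map hF hsm, iid_map_sh, hmap]
  have h10 := p10 T lam r (fun y => f (sh (-c) y)) (fun y => ψ (sh (-c) y)) (hf.comp hsm)
    (hψ.measurable.comp hsm) (by
      intro y y' h
      refine hψ.window _ _ fun i hi1 hi2 => ?_
      show y (i + -c) = y' (i + -c)
      refine h _ ?_
      rw [abs_le]
      constructor <;> omega) hlaw
  have hset : {y : ℤ → T | f (sh (-c) y) ≠ ψ (sh (-c) y)} =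
      sh (-c) ⁻¹' {y : ℤ → T | f y ≠ ψ y} := rfl
  have hms : MeasurableSet {y : ℤ → T | f y ≠ ψ y} :=
    (measurableSet_eq_fun hf hψ.measurable).compl
  rw [hset, ← Measure.map_apply hsm hms, iid_map_sh] at h10
  refine h10.trans ?_
  have hle : 8 * (r + 1) ≤ 4 * ((b - a).toNat + 3) := by omega
  have hle' : ((8 * (r + 1) : ℕ) : ℝ≥0∞) ≤ ((4 * ((b - a).toNat + 3) : ℕ) : ℝ≥0∞) := by
    exact_mod_cast hle
  gcongr

/-- There is a stationary 1-dependent process on `ℤ`, with values in a standard Borel space, such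
that for every iid process and every factor map from it onto this process: every window map for `[a, b]`
differs from the coordinate at `0` with probability at least `1 / (4 (b - a + 3))`, the coding
radius exceeds `r` with probability at least `1 / (8 (r + 1))`, and its expectation is infinite. -/
theorem result :
    ∃ (S : Type) (_ : MeasurableSpace S) (_ : StandardBorelSpace S) (μ : Measure (ℤ → S)),
      IsProbabilityMeasure μ ∧ Stationary μ ∧ KDependent 1 μ ∧
      ∀ (T : Type u) [MeasurableSpace T] (lam : Measure T) [IsProbabilityMeasure lam]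
        (φ : (ℤ → T) → (ℤ → S)), IsFactorMap lam φ → (iidLaw lam).map φ = μ →
          (∀ (a b : ℤ), a ≤ b → ∀ ψ : (ℤ → T) → S, IsWindowMap a b ψ →
            ENNReal.ofReal (1 / (4 * ((b : ℝ) - a + 3))) ≤ iidLaw lam {y | φ y 0 ≠ ψ y}) ∧
          (∀ r : ℕ, ENNReal.ofReal (1 / (8 * ((r : ℝ) + 1))) ≤
            iidLaw lam {y | (r : ℕ∞) < codingRadius φ y}) ∧
          ∫⁻ y, (codingRadius φ y : ℝ≥0∞) ∂(iidLaw lam) = ⊤ := by
  classical
  refine ⟨Pool.Agent.W759.FD.S0, inferInstance, inferInstance, Pool.Agent.W759.FD.muX,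
    Pool.Agent.W759.FD.muX_prob, Pool.Agent.W759.FD.muX_stat, ?_, ?_⟩
  · intro A B hAB
    exact Pool.Agent.W759.FD.muX_dep A B (by simpa using hAB)
  · intro T _ lam _ φ hφ hmap
    obtain ⟨t0⟩ : Nonempty T := nonempty_of_isProbabilityMeasure lam
    let tr : ℕ → (ℤ → T) → (ℤ → T) := fun r y i => if |i| ≤ (r : ℤ) then y i else t0
    have htr : ∀ r, Measurable (tr r) := by
      intro r
      refine measurable_pi_lambda _ (fun i => ?_)
      by_cases h : |i| ≤ (r : ℤ)
      · simpa [tr, h] using measurable_pi_apply i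
      · simp [tr, h]
    have hf : Measurable (fun y => φ y 0) := (measurable_pi_apply 0).comp hφ.measurable
    have hg : ∀ r, Measurable (fun y => φ (tr r y) 0) := fun r => hf.comp (htr r)
    have hae : (fun (y : ℤ → T) (a : ℤ) => φ (Pool.Agent.W759.FD.sh a y) 0)
        =ᵐ[Pool.Agent.W759.FD.iid lam] φ :=
      Pool.Agent.W759.FD.ae_factor lam φ hφ.equivariant
    have hmap2 : (Pool.Agent.W759.FD.iid lam).map
        (fun y a => φ (Pool.Agent.W759.FD.sh a y) 0) = Pool.Agent.W759.FD.muX := by
      rw [Measure.map_congr hae]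
      exact hmap
    have hblock : ∀ r : ℕ, 1 ≤ ((8 * (r + 1) : ℕ) : ℝ≥0∞) *
        iidLaw lam {y | φ y 0 ≠ φ (tr r y) 0} := by
      intro r
      refine Pool.Agent.W759.FD.p10 T lam r (fun y => φ y 0) (fun y => φ (tr r y) 0) hf (hg r) ?_
        hmap2
      intro y y' h
      have : tr r y = tr r y' := by
        funext i
        by_cases hi : |i| ≤ (r : ℤ)
        · simp [tr, hi, h i hi]
        · simp [tr, hi]
      simp only [this]
    have hR : ∀ r y, y ∈ {y | φ y 0 ≠ φ (tr r y) 0} → (r : ℕ∞) < codingRadius φ y := by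
      intro r y hy
      by_contra hcon
      rw [not_lt] at hcon
      apply hy
      have hcon2 : codingRadius φ y < ((r + 1 : ℕ) : ℕ∞) :=
        lt_of_le_of_lt hcon (by exact_mod_cast Nat.lt_succ_self r)
      unfold codingRadius at hcon2
      rw [iInf_lt_iff] at hcon2
      obtain ⟨n, hn⟩ := hcon2
      rw [iInf_lt_iff] at hn
      obtain ⟨hd, hn⟩ := hn
      have hn' : n ≤ r := by
        have : n < r + 1 := by exact_mod_cast hn
        omega
      refine (hd (tr r y) (fun i hi => ?_)).symm
      have : |i| ≤ (r : ℤ) := hi.trans (by exact_mod_cast hn')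
      simp [tr, this]
    refine ⟨fun a b hab ψ hψ => ?_, fun r => ?_, ?_⟩
    · have h := inv_bound (by omega) (window_bound lam (fun y => φ y 0) hf hmap2 hab ψ hψ)
      have e : ((4 * ((b - a).toNat + 3) : ℕ) : ℝ) = 4 * ((b : ℝ) - a + 3) := by
        have e1 : (((b - a).toNat : ℤ) : ℝ) = (b : ℝ) - a := by
          rw [Int.toNat_of_nonneg (by omega)]
          push_cast
          ring
        push_cast
        rw [← e1]
        push_cast
        ring
      rw [e] at h
      exact h
    · have h := inv_bound (by omega) (hblock r)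
      have e : ((8 * (r + 1) : ℕ) : ℝ) = 8 * ((r : ℝ) + 1) := by push_cast; ring
      rw [e] at h
      exact h.trans (measure_mono (hR r))
    exact Pool.Agent.W759.FD.lintegral_top (iidLaw lam) (codingRadius φ)
      (fun r => {y | φ y 0 ≠ φ (tr r y) 0})
      (fun r => (measurableSet_eq_fun hf (hg r)).compl) hR hblock

end Pool.Agent.Results.MP_ba6fcf_pr.SharpTail
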